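import Pool.Agent.H32.RQ.Targets

/-!
# Row PIG: two pigeonholes
-/

set_option autoImplicit false

open Finset

namespace Pool.Agent.H94.RQ

open Pool.Agent.H32.RQ

/-- a pigeonhole for a linear form on a box -/
theorem box_pig (m : Fin 3 → ℕ) (x : Fin 3 → ℤ)
    (h : ∑ i, (m i : ℤ) * |x i| + 1 < ∏ i, ((m i : ℤ) + 1)) :
    ∃ d : Fin 3 → ℤ, d ≠ 0 ∧ (∀ i, |d i| ≤ m i) ∧ ∑ i, d i * x i = 0 := by
  classical
  obtain ⟨S, hS⟩ : ∃ S : Finset (Fin 3 → ℤ), S = Fintype.piFinset fun i => Finset.Icc (0 : ℤ) (m i) :=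
    ⟨_, rfl⟩
  obtain ⟨T, hT⟩ : ∃ T : Finset ℤ, T = Finset.Icc (∑ i, (m i : ℤ) * min 0 (x i))
    (∑ i, (m i : ℤ) * max 0 (x i)) := ⟨_, rfl⟩
  have hSc : (S.card : ℤ) = ∏ i, ((m i : ℤ) + 1) := by
    rw [hS, Fintype.card_piFinset]
    push_cast
    refine Finset.prod_congr rfl fun i _ => ?_
    rw [Int.card_Icc]
    rw [Int.toNat_of_nonneg (by omega)]
    ring
  have hmem : ∀ u ∈ S, ∑ i, u i * x i ∈ T := by
    intro u hu
    rw [hS, Fintype.mem_piFinset] at hu
    rw [hT, Finset.mem_Icc]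
    constructor
    · refine Finset.sum_le_sum fun i _ => ?_
      obtain ⟨h0, h1⟩ := Finset.mem_Icc.1 (hu i)
      rcases le_total 0 (x i) with hx | hx
      · rw [min_eq_left hx, mul_zero]
        exact mul_nonneg h0 hx
      · rw [min_eq_right hx]
        nlinarith
    · refine Finset.sum_le_sum fun i _ => ?_
      obtain ⟨h0, h1⟩ := Finset.mem_Icc.1 (hu i)
      rcases le_total 0 (x i) with hx | hx
      · rw [max_eq_right hx]
        nlinarith
      · rw [max_eq_left hx, mul_zero]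
        nlinarith
  have hTc : (T.card : ℤ) ≤ ∑ i, (m i : ℤ) * |x i| + 1 := by
    have e : ∑ i, (m i : ℤ) * |x i| = ∑ i, (m i : ℤ) * max 0 (x i) - ∑ i, (m i : ℤ) * min 0 (x i) := by
      rw [← Finset.sum_sub_distrib]
      refine Finset.sum_congr rfl fun i _ => ?_
      rw [← mul_sub, max_sub_min_eq_abs, sub_zero]
    have h0 : 0 ≤ ∑ i, (m i : ℤ) * |x i| := Finset.sum_nonneg fun i _ => by positivity
    rw [hT, Int.card_Icc, Int.toNat_of_nonneg (by linarith)]
    linarith
  have hlt : T.card < S.card := by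
    have : (T.card : ℤ) < S.card := by rw [hSc]; linarith
    exact_mod_cast this
  obtain ⟨u, hu, v, hv, huv, he⟩ := Finset.exists_ne_map_eq_of_card_lt_of_maps_to hlt hmem
  rw [hS, Fintype.mem_piFinset] at hu hv
  refine ⟨u - v, sub_ne_zero.2 huv, fun i => ?_, ?_⟩
  · obtain ⟨a1, a2⟩ := Finset.mem_Icc.1 (hu i)
    obtain ⟨b1, b2⟩ := Finset.mem_Icc.1 (hv i)
    rw [Pi.sub_apply, abs_le]
    constructor <;> linarith
  · simp only [Pi.sub_apply, sub_mul, Finset.sum_sub_distrib]
    linarith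

theorem pf_PIG : T_PIG := by
  classical
  intro B R x hR hx hrel
  -- the coordinates do not vanish
  have hx0 : ∀ i, x i ≠ 0 := by
    intro i hi
    have h1 := hrel (Pi.single i 1) (fun j => by
      by_cases hj : j = i
      · rw [hj, Pi.single_eq_same]
        simpa using (by exact_mod_cast hR : (1 : ℤ) ≤ R)
      · rw [Pi.single_eq_of_ne hj]
        simp) (by
      rw [Finset.sum_eq_single i]
      · rw [hi, mul_zero]
      · intro j _ hj
        rw [Pi.single_eq_of_ne hj, zero_mul]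
      · intro h
        exact absurd (Finset.mem_univ i) h)
    have h2 := congrFun h1 i
    rw [Pi.single_eq_same] at h2
    exact one_ne_zero h2
  have hB : (1 : ℤ) ≤ B := by
    have h1 := Int.one_le_abs (hx0 0)
    linarith [hx 0]
  -- the minimal relation
  have hex : ∃ n : ℕ, ∃ l : Fin 3 → ℤ, l ≠ 0 ∧ ∑ i, l i * x i = 0 ∧ ∀ i, |l i| ≤ n := by
    refine ⟨B, ![x 1, -x 0, 0], ?_, ?_, ?_⟩
    · intro h
      have := congrFun h 0
      exact hx0 1 this
    · rw [Fin.sum_univ_three]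
      show x 1 * x 0 + -x 0 * x 1 + 0 * x 2 = 0
      ring
    · intro i
      fin_cases i
      · exact hx 1
      · have := hx 0
        simpa using this
      · simp
  obtain ⟨n, hn⟩ : ∃ n, n = Nat.find hex := ⟨_, rfl⟩
  obtain ⟨l, hl0, hlx, hln⟩ := Nat.find_spec hex
  rw [← hn] at hln
  have hmin : ∀ d : Fin 3 → ℤ, d ≠ 0 → ∑ i, d i * x i = 0 → ¬ ∀ i, |d i| ≤ (n : ℤ) - 1 := by
    intro d hd0 hdx hdn
    have hn1 : 1 ≤ n := by
      have h1 := abs_nonneg (d 0)
      have h2 := hdn 0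
      have : (1 : ℤ) ≤ n := by linarith
      exact_mod_cast this
    have hlt : n - 1 < Nat.find hex := by omega
    refine Nat.find_min hex hlt ⟨d, hd0, hdx, fun i => ?_⟩
    rw [Nat.cast_sub hn1, Nat.cast_one]
    exact hdn i
  have hRn : (R : ℤ) < n := by
    by_contra hcon
    exact hl0 (hrel l (fun i => (hln i).trans (not_lt.1 hcon)) hlx)
  have hR1 : (1 : ℤ) ≤ R := by exact_mod_cast hR
  obtain ⟨k, hk⟩ : ∃ k, |l k| = n := by
    by_contra hcon
    push Not at hcon
    refine hmin l hl0 hlx fun i => ?_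
    have h1 := lt_of_le_of_ne (hln i) (hcon i)
    linarith
  -- claim 1
  have hc1 : (n : ℤ) ^ 2 ≤ 3 * B := by
    by_contra hcon
    have hcon' : 3 * (B : ℤ) + 1 ≤ (n : ℤ) ^ 2 := by
      have := not_le.1 hcon
      linarith
    have hn1 : 1 ≤ n := by
      have : (1 : ℤ) ≤ n := by linarith
      exact_mod_cast this
    have e1 : (((n - 1 : ℕ) : ℤ)) = n - 1 := by rw [Nat.cast_sub hn1, Nat.cast_one]
    obtain ⟨d, hd0, hdn, hdx⟩ := box_pig (fun _ => n - 1) x (by
      rw [Fin.sum_univ_three, Fin.prod_univ_three, e1]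
      have a0 := hx 0
      have a1 := hx 1
      have a2 := hx 2
      have hn' : (0 : ℤ) ≤ (n : ℤ) - 1 := by linarith
      have b0 := mul_le_mul_of_nonneg_left a0 hn'
      have b1 := mul_le_mul_of_nonneg_left a1 hn'
      have b2 := mul_le_mul_of_nonneg_left a2 hn'
      have c1 : (3 * (B : ℤ) + 1) * n ≤ (n : ℤ) ^ 2 * n :=
        mul_le_mul_of_nonneg_right hcon' (by linarith)
      nlinarith)
    refine hmin d hd0 hdx fun i => ?_
    rw [← e1]
    exact hdn i
  -- claim 2
  have hn1 : 1 ≤ n := by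
    have : (1 : ℤ) ≤ n := by linarith
    exact_mod_cast this
  have hBn : 1 ≤ B := by exact_mod_cast hB
  obtain ⟨r, hr⟩ : ∃ r, r = (3 * B - 1) / n := ⟨_, rfl⟩
  have hr1 : n * r ≤ 3 * B - 1 := by rw [hr]; exact Nat.mul_div_le _ _
  have hr2 : 3 * B - 1 < n * (r + 1) := by
    rw [hr]
    have := Nat.lt_div_mul_add (a := 3 * B - 1) (b := n) (by omega)
    calc 3 * B - 1 < (3 * B - 1) / n * n + n := this
      _ = n * ((3 * B - 1) / n + 1) := by ring
  have hr1' : (n : ℤ) * r ≤ 3 * B - 1 := by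
    have h1 : ((n * r : ℕ) : ℤ) ≤ ((3 * B - 1 : ℕ) : ℤ) := by exact_mod_cast hr1
    rw [Nat.cast_sub (by omega)] at h1
    push_cast at h1
    exact h1
  have hr2' : 3 * (B : ℤ) ≤ n * (r + 1) := by
    have h1 : 3 * B ≤ n * (r + 1) := by omega
    exact_mod_cast h1
  have hnr : (n : ℤ) ≤ r + 1 := by
    have h1 : (n : ℤ) * n ≤ n * (r + 1) := by
      calc (n : ℤ) * n = (n : ℤ) ^ 2 := by ring
        _ ≤ 3 * B := hc1
        _ ≤ _ := hr2'
    exact le_of_mul_le_mul_left h1 (by linarith)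
  have e1 : (((n - 1 : ℕ) : ℤ)) = n - 1 := by rw [Nat.cast_sub hn1, Nat.cast_one]
  obtain ⟨u, hu0, hun, hux⟩ := box_pig (fun i => if i = k then n - 1 else r) x (by
    have hP : ∏ i : Fin 3, ((((if i = k then n - 1 else r : ℕ)) : ℤ) + 1) =
        (n : ℤ) * (r + 1) ^ 2 := by
      rw [← Finset.mul_prod_erase Finset.univ _ (Finset.mem_univ k), if_pos rfl, e1]
      rw [Finset.prod_congr (g := fun _ => (r : ℤ) + 1) rfl (fun i hi => by
        rw [if_neg (Finset.ne_of_mem_erase hi)])]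
      rw [Finset.prod_const, Finset.card_erase_of_mem (Finset.mem_univ k), Finset.card_univ,
        Fintype.card_fin]
      ring
    have hSm : ∑ i : Fin 3, (((if i = k then n - 1 else r : ℕ)) : ℤ) * |x i| ≤ 3 * B * r := by
      have h1 : ∀ i : Fin 3, (((if i = k then n - 1 else r : ℕ)) : ℤ) * |x i| ≤ r * B := by
        intro i
        have h2 : (((if i = k then n - 1 else r : ℕ)) : ℤ) ≤ r := by
          split_ifs
          · rw [e1]; linarith
          · exact le_rfl
        exact mul_le_mul h2 (hx i) (abs_nonneg _) (by positivity)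
      refine (Finset.sum_le_sum fun i _ => h1 i).trans (le_of_eq ?_)
      rw [Finset.sum_const, Finset.card_univ, Fintype.card_fin]
      simp only [nsmul_eq_mul]
      push_cast
      ring
    rw [hP]
    have h3 : 3 * (B : ℤ) * (r + 1) ≤ n * (r + 1) ^ 2 := by
      have := mul_le_mul_of_nonneg_right hr2' (by positivity : (0 : ℤ) ≤ (r : ℤ) + 1)
      calc 3 * (B : ℤ) * (r + 1) ≤ n * (r + 1) * (r + 1) := this
        _ = _ := by ring
    have h4 : 3 * (B : ℤ) * (r + 1) = 3 * B * r + 3 * B := by ring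
    linarith)
  have hunr : ∀ i, |u i| ≤ r := by
    intro i
    refine (hun i).trans ?_
    split_ifs
    · rw [e1]; linarith
    · exact le_rfl
  refine ⟨l, u, fun i => ⟨?_, ?_⟩, hlx, hux, ?_⟩
  · calc |l i| * R ≤ n * n := mul_le_mul (hln i) hRn.le (by positivity) (by positivity)
      _ = (n : ℤ) ^ 2 := by ring
      _ ≤ 3 * B := hc1
  · calc |u i| * R ≤ r * n := mul_le_mul (hunr i) hRn.le (by positivity) (by positivity)
      _ = (n : ℤ) * r := by ring
      _ ≤ 3 * B := by linarith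
  · by_contra hcon
    push Not at hcon
    refine hmin u hu0 hux fun i => ?_
    have h1 := hcon k i
    unfold mnr at h1
    have h2 : l k * u i = l i * u k := by linarith
    have h3 : |l k| * |u i| = |l i| * |u k| := by rw [← abs_mul, ← abs_mul, h2]
    have h4 : |u k| ≤ (n : ℤ) - 1 := by
      have := hun k
      rwa [if_pos rfl, e1] at this
    rw [hk] at h3
    have h5 : (n : ℤ) * |u i| ≤ n * (n - 1) := by
      rw [h3]
      exact mul_le_mul (hln i) h4 (abs_nonneg _) (by positivity)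
    exact le_of_mul_le_mul_left h5 (by linarith)

end Pool.Agent.H94.RQ

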